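import Pool.Agent.Y377.IL.StmB


/-!
# Job 5217 (IL-FGS): subfields of finitely generated fields are finitely generated
-/

set_option autoImplicit false

namespace Pool.Agent.Y333.IL

open IntermediateField

open scoped IntermediateField.algebraAdjoinAdjoin

/-- linear independence is kept when the base field is enlarged by algebraically independent
elements -/
theorem li_adjoin {F E K : Type} [Field F] [Field E] [Field K] [Algebra F E] [Algebra E K]
    [Algebra F K] [IsScalarTower F E K] {ι κ : Type} {x : ι → K} (hx : AlgebraicIndependent E x)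
    {e : κ → E} (he : LinearIndependent F e) :
    LinearIndependent (adjoin F (Set.range x)) (fun i => algebraMap E K (e i)) := by
  rw [← LinearIndependent.iff_fractionRing (Algebra.adjoin F (Set.range x))
    (adjoin F (Set.range x)), linearIndependent_iff']
  intro s g hg i hi
  have h1 : ∀ j, ∃ P : MvPolynomial ι F, MvPolynomial.aeval x P = (g j : K) := by
    intro j
    have h : (g j : K) ∈ (MvPolynomial.aeval x : MvPolynomial ι F →ₐ[F] K).range :=
      (Algebra.adjoin_range_eq_range_aeval F x).le (g j).2
    exact h
  choose P hP using h1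
  have h2 : ∑ j ∈ s, (g j : K) * algebraMap E K (e j) = 0 := by
    rw [← hg]
    refine Finset.sum_congr rfl fun j _ => ?_
    rfl
  have h3 : MvPolynomial.aeval x
      (∑ j ∈ s, MvPolynomial.C (e j) * MvPolynomial.map (algebraMap F E) (P j)) = 0 := by
    rw [map_sum, ← h2]
    refine Finset.sum_congr rfl fun j _ => ?_
    rw [map_mul, MvPolynomial.aeval_C, MvPolynomial.aeval_map_algebraMap, hP, mul_comm]
  have h4 : (∑ j ∈ s, MvPolynomial.C (e j) * MvPolynomial.map (algebraMap F E) (P j)) = 0 :=
    hx (by rw [h3, map_zero])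
  have h5 : P i = 0 := by
    ext m
    have h6 := congrArg (MvPolynomial.coeff m) h4
    rw [MvPolynomial.coeff_sum, MvPolynomial.coeff_zero] at h6
    have h7 : ∑ j ∈ s, (MvPolynomial.coeff m (P j)) • e j = 0 := by
      rw [← h6]
      refine Finset.sum_congr rfl fun j _ => ?_
      rw [MvPolynomial.coeff_C_mul, MvPolynomial.coeff_map, Algebra.smul_def, mul_comm]
    rw [MvPolynomial.coeff_zero]
    exact linearIndependent_iff'.1 he s _ h7 i hi
  have h8 : (g i : K) = 0 := by
    rw [← hP i, h5, map_zero]
  exact Subtype.ext h8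

theorem finite_of {F E K : Type} [Field F] [Field E] [Field K] [Algebra F E] [Algebra E K]
    [Algebra F K] [IsScalarTower F E K] [Algebra.IsAlgebraic F E] [Algebra.EssFiniteType F K]
    {ι : Type} [Finite ι] {x : ι → K} (hx : IsTranscendenceBasis E x) : Module.Finite F E := by
  have h0 : AlgebraicIndependent F x :=
    AlgebraicIndependent.restrictScalars (algebraMap F E).injective hx.1
  have h1 : IsTranscendenceBasis F x := by
    refine h0.isTranscendenceBasis_of_trdeg_le_of_finite ?_
    rw [← trdeg_add_eq F E, trdeg_eq_zero_iff.2 inferInstance, zero_add,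
      ← hx.cardinalMk_eq_trdeg]
  have h2 : Algebra.IsAlgebraic (adjoin F (Set.range x)) K := h1.isAlgebraic_field
  have h3 : Algebra.EssFiniteType (adjoin F (Set.range x)) K :=
    Algebra.EssFiniteType.of_comp F (adjoin F (Set.range x)) K
  have h4 : Module.Finite (adjoin F (Set.range x)) K :=
    Algebra.finite_of_essFiniteType_of_isAlgebraic
  refine @Module.IsNoetherian.finite F E _ _ _ (IsNoetherian.iff_rank_lt_aleph0.2 ?_)
  refine lt_of_le_of_lt (rank_le (n := Module.finrank (adjoin F (Set.range x)) K)
    fun s hs => ?_) (Cardinal.natCast_lt_aleph0)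
  have h5 := li_adjoin hx.1 hs
  have h6 := h5.fintype_card_le_finrank
  simpa using h6

theorem fg_of {k K : Type} [Field k] [Field K] [Algebra k K] [Algebra.EssFiniteType k K]
    (E : IntermediateField k K) : E.FG := by
  have hft : Algebra.trdeg k K < Cardinal.aleph0 := trdeg_lt_aleph0 k K
  have hadd : Algebra.trdeg k E + Algebra.trdeg E K = Algebra.trdeg k K := trdeg_add_eq k E
  have hE : FinTrdeg k E := .of_trdeg (lt_of_le_of_lt (by rw [← hadd]; exact le_self_add) hft)
  have hK : FinTrdeg E K := .of_trdeg (lt_of_le_of_lt (by rw [← hadd]; exact le_add_self) hft)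
  obtain ⟨s, hs⟩ := exists_finset_isTranscendenceBasis k E
  obtain ⟨t, ht⟩ := exists_finset_isTranscendenceBasis E K
  have halg : Algebra.IsAlgebraic (adjoin k (Set.range ((↑) : s → E))) E := hs.isAlgebraic_field
  have h1 : Algebra.EssFiniteType k (adjoin k (Set.range ((↑) : s → E))) :=
    essFiniteType_iff.2 (fg_adjoin_of_finite (Set.finite_range _))
  have h2 : Algebra.EssFiniteType (adjoin k (Set.range ((↑) : s → E))) K :=
    Algebra.EssFiniteType.of_comp k (adjoin k (Set.range ((↑) : s → E))) K
  have h3 : Module.Finite (adjoin k (Set.range ((↑) : s → E))) E := finite_of ht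
  rw [← essFiniteType_iff]
  exact Algebra.EssFiniteType.comp k (adjoin k (Set.range ((↑) : s → E))) E

theorem t_FGS : Pool.Agent.Y377.IL.S_FGS := by
  intro K _ _ h E
  have h1 : Algebra.EssFiniteType ℂ K := fg_top_iff.1 h
  exact fg_of E

end Pool.Agent.Y333.IL
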